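import Pool.Agent.Work.MP_f21b3e_ml.All

/-!
# Leaf maps which descend or which are isometries (MP_f21b3e_gt)
-/

set_option autoImplicit false

namespace Pool.Agent.MLS

open Set Topology

/-- No flat strips: two lines at bounded distance from each other are equal up to a shift. -/
def NoStrips (X : Type) [MetricSpace X] : Prop :=
  ∀ c d : Lines X, (∃ D : ℝ, ∀ t : ℝ, dist (c.1 t) (d.1 t) ≤ D) → ∃ s : ℝ, d = shift s c

/-- Through each point pass two lines which meet only there. -/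
def TwoLines (X : Type) [MetricSpace X] : Prop :=
  ∀ x : X, ∃ c d : Lines X, range c.1 ∩ range d.1 = {x}

/-- The orbit of `c` under the group and the geodesic flow is dense. -/
def DenseOrbit {X : Type} [MetricSpace X] (Γ : Type) [Group Γ] [MulAction Γ X]
    [IsIsometricSMul Γ X] (c : Lines X) : Prop :=
  ∀ d : Lines X, d ∈ closure {e : Lines X | ∃ (γ : Γ) (s : ℝ), e = shift s (mv γ c)}

theorem Rig_id {X : Type} [MetricSpace X] (h1 : NoStrips X) (h2 : TwoLines X) (g : X → X)
    (hg : ∀ a b, dist (g a) (g b) = dist a b) (D : ℝ) (hD : ∀ z, dist (g z) z ≤ D) (x : X) :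
    g x = x := by
  have key : ∀ c : Lines X, x ∈ range c.1 → g x ∈ range c.1 := by
    rintro c ⟨s0, hs0⟩
    have hgi : Isometry g := Isometry.of_dist_eq hg
    let gc : Lines X := ⟨⟨fun t => g (c.1 t), hgi.continuous.comp c.1.continuous⟩, hgi.comp c.2⟩
    obtain ⟨s, hs⟩ := h1 c gc ⟨D, fun t => by
      rw [dist_comm]
      exact hD (c.1 t)⟩
    have h3 : gc.1 s0 = (shift s c).1 s0 := by rw [hs]
    refine ⟨s0 + s, ?_⟩
    have h4 : g (c.1 s0) = c.1 (s0 + s) := h3
    rw [← h4, hs0]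
  obtain ⟨c, d, hcd⟩ := h2 x
  have hx : x ∈ range c.1 ∩ range d.1 := by rw [hcd]; exact mem_singleton x
  have hgx : g x ∈ range c.1 ∩ range d.1 := ⟨key c hx.1, key d hx.2⟩
  rw [hcd] at hgx
  exact hgx

theorem Rig_asy_shift {X : Type} [MetricSpace X] (c : Lines X) (s : ℝ) : Asy c (shift s c) := by
  refine ⟨|s|, fun t _ => ?_⟩
  show dist (c.1 t) (c.1 (t + s)) ≤ |s|
  rw [c.2.dist_eq, Real.dist_eq]
  rw [show t - (t + s) = -s by ring, abs_neg]

theorem Rig_asy_refl {X : Type} [MetricSpace X] (c : Lines X) : Asy c c :=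
  ⟨0, fun t _ => by rw [dist_self]⟩

theorem rigid (X Y : Type) [MetricSpace X] [MetricSpace Y] (hX : IsHadamard X)
    (hY : IsHadamard Y) (Γ : Type) [Group Γ] [MulAction Γ X] [MulAction Γ Y]
    [IsIsometricSMul Γ X] [IsIsometricSMul Γ Y]
    (hco : ∃ K : Set X, IsCompact K ∧ ∀ x : X, ∃ γ : Γ, γ • x ∈ K) (f : X ≃ₜ Y)
    (hf : ∀ (γ : Γ) (x : X), f (γ • x) = γ • f x) (F : Lines X ≃ₜ Lines Y)
    (hF : Conjugacy Γ F) (L : Lines X → X → Y) (hL : LeafMaps F L) :
    (∀ c : Lines X, Function.Bijective (L c)) ∧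
    (∀ c : Lines X, (∀ (d : Lines X) (x : X), L d x = L c x) →
      (∀ x y : X, dist (L c x) (L c y) = dist x y) ∧
      (∀ (γ : Γ) (x : X), L c (γ • x) = γ • L c x) ∧
      ∀ (d : Lines X) (t : ℝ), (F d).1 t = L c (d.1 t)) ∧
    (∀ c : Lines X, DenseOrbit Γ c → (∀ (γ : Γ) (x : X), L c (γ • x) = γ • L c x) →
      ∀ (d : Lines X) (x : X), L d x = L c x) ∧
    (NoStrips X → TwoLines X → ∀ c : Lines X, (∀ x y : X, dist (L c x) (L c y) = dist x y) →
      (∀ (γ : Γ) (x : X), L c (γ • x) = γ • L c x) ∧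
      ∀ d : Lines X, ∃ s : ℝ, ∀ t : ℝ, (F d).1 t = L c (d.1 (t + s))) := by
  obtain ⟨hU, -, L', H, G, C, hL', hcls, hH, -, hGH, hHG, hH0, hH1, heq, hC⟩ :=
    stmt_MAIN X Y hX hY Γ hco f hf F hF
  have hLL : ∀ c x, L c x = H (c, 1, x) := by
    intro c x
    obtain ⟨d, ⟨hd1, hd2⟩, -⟩ := hU c x
    rw [hH1 c x, ← hd2, hL c d hd1, hL' c d hd1]
  have h1 : (1 : ℝ) ∈ Icc (0 : ℝ) 1 := ⟨zero_le_one, le_rfl⟩
  have hbij : ∀ c : Lines X, Function.Bijective (L c) := by
    intro c
    constructor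
    · intro x y hxy
      have h2 := hGH c 1 h1 x
      rw [← hLL, hxy, hLL, hGH c 1 h1 y] at h2
      exact h2.symm
    · intro y
      exact ⟨G (c, 1, y), by rw [hLL]; exact hHG c 1 h1 y⟩
  have hmv : ∀ (γ : Γ) (c : Lines X) (z : X), L (mv γ c) (γ • z) = γ • L c z := by
    intro γ c z
    rw [hLL, hLL]
    exact heq γ c 1 h1 z
  have hbd : ∀ (c : Lines X) (z : X), dist (L c z) (f z) ≤ C := by
    intro c z
    rw [hLL]
    simpa using hC c 1 h1 z
  have hbd2 : ∀ (c d : Lines X) (z : X), dist (L c z) (L d z) ≤ C + C := by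
    intro c d z
    refine (dist_triangle _ (f z) _).trans ?_
    rw [dist_comm (f z)]
    exact add_le_add (hbd c z) (hbd d z)
  have hasy : ∀ (c d : Lines X) (z : X), Asy c d → L c z = L d z := by
    intro c d z h
    rw [hLL, hLL, hH1, hH1]
    exact hcls c d z h
  have hcont : ∀ z : X, Continuous (fun c : Lines X => L c z) := by
    intro z
    have h2 : Continuous (fun c : Lines X => H (c, 1, z)) :=
      hH.comp_continuous (by fun_prop) (fun c => h1)
    simpa only [hLL] using h2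
  have hpt : ∀ (d : Lines X) (t : ℝ), (F d).1 t = L d (d.1 t) := by
    intro d t
    have h3 : L (shift t d) ((shift t d).1 0) = (F (shift t d)).1 0 :=
      hL _ _ (Rig_asy_refl _)
    rw [← hasy _ _ _ (Rig_asy_shift d t), hF.flow] at h3
    have h4 : (shift t (F d)).1 0 = (F d).1 (0 + t) := rfl
    have h5 : (shift t d).1 0 = d.1 (0 + t) := rfl
    rw [h4, h5, zero_add] at h3
    exact h3.symm
  refine ⟨hbij, ?_, ?_, ?_⟩
  · intro c hall
    have hFd : ∀ (d : Lines X) (t : ℝ), (F d).1 t = L c (d.1 t) := fun d t => by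
      rw [hpt, hall]
    refine ⟨fun x y => ?_, fun γ x => by rw [← hall (mv γ c), hmv], hFd⟩
    by_cases hxy : x = y
    · rw [hxy, dist_self, dist_self]
    · obtain ⟨e, ⟨he0, he1⟩, -⟩ := hX.line x y hxy
      have h6 : dist ((F e).1 0) ((F e).1 (dist x y)) = dist (0 : ℝ) (dist x y) :=
        (F e).2.dist_eq _ _
      rw [hFd, hFd, he0, he1, Real.dist_eq, zero_sub, abs_neg, abs_of_nonneg dist_nonneg] at h6
      exact h6
  · intro c hd he d z
    have hcl : IsClosed {e : Lines X | L e z = L c z} := isClosed_eq (hcont z) continuous_const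
    have hsub : {e : Lines X | ∃ (γ : Γ) (s : ℝ), e = shift s (mv γ c)} ⊆
        {e : Lines X | L e z = L c z} := by
      rintro e ⟨γ, s, rfl⟩
      show L (shift s (mv γ c)) z = L c z
      rw [← hasy _ _ z (Rig_asy_shift (mv γ c) s)]
      have h3 := hmv γ c (γ⁻¹ • z)
      rw [smul_inv_smul] at h3
      rw [h3, ← he, smul_inv_smul]
    exact closure_minimal hsub hcl (hd d)
  · intro hS hT c hiso
    have hψ : ∀ (γ : Γ) (z : X), L (mv γ c) z = γ • L c (γ⁻¹ • z) := by
      intro γ z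
      have h3 := hmv γ c (γ⁻¹ • z)
      rwa [smul_inv_smul] at h3
    constructor
    · intro γ x
      have hψi : ∀ a b, dist (L (mv γ c) a) (L (mv γ c) b) = dist a b := by
        intro a b
        rw [hψ, hψ, dist_smul, hiso, dist_smul]
      choose g hg using fun z => (hbij (mv γ c)).2 (L c z)
      have hid := Rig_id hS hT g (fun a b => by rw [← hψi, hg, hg, hiso]) (C + C) (fun z => by
        rw [← hψi, hg]
        exact hbd2 c (mv γ c) z)
      rw [← hg (γ • x), hid, hmv]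
    · intro d
      choose g hg using fun t => (hbij c).2 ((F d).1 t)
      have hgi : Isometry g := Isometry.of_dist_eq fun a b => by
        rw [← hiso, hg, hg, (F d).2.dist_eq]
      let gc : Lines X := ⟨⟨g, hgi.continuous⟩, hgi⟩
      obtain ⟨s, hs⟩ := hS d gc ⟨C + C, fun t => by
        show dist (d.1 t) (g t) ≤ C + C
        rw [dist_comm, ← hiso, hg, hpt]
        exact hbd2 d c (d.1 t)⟩
      refine ⟨s, fun t => ?_⟩
      have h7 : gc.1 t = (shift s d).1 t := by rw [hs]
      have h8 : g t = d.1 (t + s) := h7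
      rw [← h8, hg]

end Pool.Agent.MLS
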